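import Pool.Agent.W70.HRC.Asm
import Pool.Agent.H461R2.PD.Hit

/-!
# Consecutive primes in a transversal of given classes of shifts
-/

set_option autoImplicit false

namespace Pool.Agent.N685.CP

open Finset Pool.Agent.H361R2.PP Pool.Agent.W70.HR Pool.Agent.W70.HRC
open Pool.Agent.H461R2.PD (Adm)

open Classical in
/-- the number of `n ∈ (X, 2X]`, `n ≡ a (mod q)`, for which the numbers `n + h`, `h ∈ F`, are
consecutive primes -/
noncomputable def cq (X q a : ℕ) (F : Finset ℕ) : ℕ :=
  ((Ioc X (2 * X)).filter (fun n => n ≡ a [MOD q] ∧ Cns n F)).card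

theorem exists_b {T K : ℕ} (X q a : ℕ) (H : Fin T → Fin K → ℕ) (hH : Adm H)
    (hqH : ∀ p, p.Prime → p ∣ q → ∀ g i, ¬ p ∣ a + H g i) :
    ∃ b < Wm X, (∀ g i, (b + (H g i + 1)).Coprime (Wm X)) ∧
      ∀ p, p.Prime → p ∣ q → p ∣ Wm X → b + 1 ≡ a [MOD p] := by
  classical
  have hex : ∀ p : ℕ, ∃ r : ℕ, p.Prime → ((∀ g i, ¬ p ∣ r + (H g i + 1)) ∧
      (p ∣ q → r + 1 ≡ a [MOD p])) := by
    intro p
    by_cases hp : p.Prime
    · by_cases hpq : p ∣ q
      · refine ⟨a + (p - 1), fun _ => ⟨?_, fun _ => ?_⟩⟩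
        · intro g i hd
          apply hqH p hp hpq g i
          have hp1 := hp.one_lt
          have e : a + (p - 1) + (H g i + 1) = (a + H g i) + p := by omega
          rw [e] at hd
          exact (Nat.dvd_add_left (dvd_refl p)).1 hd
        · have hp1 := hp.one_lt
          have e : a + (p - 1) + 1 = a + p := by omega
          rw [e]
          exact (Nat.add_mod_right a p)
      · obtain ⟨z, hz⟩ := hH.2 p hp
        have hp0 : (0 : ℤ) < p := by exact_mod_cast hp.pos
        refine ⟨((z - 1) % p).toNat, fun _ => ⟨?_, fun h => absurd h hpq⟩⟩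
        intro g i hd
        apply hz g i
        have h1 : (((z - 1) % p).toNat : ℤ) = (z - 1) % p :=
          Int.toNat_of_nonneg (Int.emod_nonneg _ hp0.ne')
        have h2 : (p : ℤ) ∣ (((z - 1) % p).toNat : ℤ) + ((H g i : ℤ) + 1) := by
          exact_mod_cast hd
        rw [h1] at h2
        have h3 : (p : ℤ) ∣ (z - 1) - (z - 1) % p := Int.dvd_self_sub_emod
        have h4 := dvd_add h3 h2
        have e : (z - 1) - (z - 1) % (p : ℤ) + ((z - 1) % p + ((H g i : ℤ) + 1)) = z + H g i := by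
          ring
        rwa [e] at h4
    · exact ⟨0, fun h => absurd h hp⟩
  choose r hr using hex
  obtain ⟨m, hm⟩ := Nat.chineseRemainderOfFinset r id (Wm X).primeFactors
    (by
      intro p hp
      exact (Nat.prime_of_mem_primeFactors hp).ne_zero)
    (by
      intro p hp p' hp' hne
      exact (Nat.coprime_primes (Nat.prime_of_mem_primeFactors hp)
        (Nat.prime_of_mem_primeFactors hp')).2 hne)
  have hW : 0 < Wm X := primorial_pos _
  have hb : ∀ p, p.Prime → p ∣ Wm X → m % Wm X ≡ r p [MOD p] := by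
    intro p hp hpW
    have h1 : m % Wm X ≡ m [MOD p] := (Nat.mod_modEq m (Wm X)).of_dvd hpW
    exact h1.trans (hm p (Nat.mem_primeFactors.2 ⟨hp, hpW, hW.ne'⟩))
  refine ⟨m % Wm X, Nat.mod_lt _ hW, ?_, ?_⟩
  · intro g i
    apply Nat.coprime_of_dvd
    intro p hp h1 h2
    apply (hr p hp).1 g i
    have h3 := (hb p hp h2).add_right (H g i + 1)
    exact (h3.dvd_iff (dvd_refl p)).1 h1
  · intro p hp hpq hpW
    exact ((hb p hp hpW).add_right 1).trans ((hr p hp).2 hpq)

theorem modEq_of_primes {q x y : ℕ} (hq : Squarefree q)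
    (h : ∀ p, p.Prime → p ∣ q → x ≡ y [MOD p]) : x ≡ y [MOD q] := by
  have h1 : (∏ p ∈ q.primeFactors, p) ∣ ((y : ℤ) - x).natAbs := by
    apply Finset.prod_primes_dvd
    · intro p hp
      exact Nat.prime_iff.1 (Nat.prime_of_mem_primeFactors hp)
    · intro p hp
      exact Int.natCast_dvd.1 ((Nat.modEq_iff_dvd).1 (h p (Nat.prime_of_mem_primeFactors hp)
        (Nat.dvd_of_mem_primeFactors hp)))
  rw [Nat.prod_primeFactors_of_squarefree hq] at h1
  rw [Nat.modEq_iff_dvd]
  exact Int.natCast_dvd.2 h1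

theorem cns_shift {n : ℕ} {F : Finset ℕ} (h : Cns n (F.image (fun x => x + 1))) :
    Cns (n + 1) F := by
  obtain ⟨h1, h2⟩ := h
  refine ⟨fun a ha => ?_, fun j hj1 hj2 hj3 => ?_⟩
  · have := h1 (a + 1) (mem_image_of_mem _ ha)
    have e : n + (a + 1) = n + 1 + a := by ring
    rwa [e] at this
  · obtain ⟨a, ha, haj⟩ := hj1
    obtain ⟨a', ha', haj'⟩ := hj2
    have := h2 (j + 1) ⟨a + 1, mem_image_of_mem _ ha, by omega⟩
      ⟨a' + 1, mem_image_of_mem _ ha', by omega⟩ (by
        have e : n + (j + 1) = n + 1 + j := by ring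
        rw [e]; exact hj3)
    rw [mem_image] at this
    obtain ⟨x, hx, hxj⟩ := this
    have : x = j := by omega
    rwa [← this]

open Classical in
theorem count_le {X q a b : ℕ} (hq : Squarefree q)
    (hqW : ∀ p, p.Prime → p ∣ q → p ∣ Wm X)
    (hb : ∀ p, p.Prime → p ∣ q → p ∣ Wm X → b + 1 ≡ a [MOD p]) (F : Finset ℕ) :
    ((SI X b).filter (fun n => Cns n (F.image (fun x => x + 1)))).card ≤ cq X q a F := by
  unfold cq
  apply card_le_card_of_injOn (fun n => n + 1)
  · intro n hn
    rw [mem_coe, mem_filter, mem_SI] at hn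
    obtain ⟨⟨h1, h2, h3⟩, h4⟩ := hn
    change n + 1 ∈ _
    rw [mem_coe, mem_filter, mem_Ioc]
    refine ⟨⟨by omega, by omega⟩, ?_, cns_shift h4⟩
    apply modEq_of_primes hq
    intro p hp hpq
    have h5 : n ≡ b [MOD Wm X] := by
      rw [← h3]
      exact (Nat.mod_modEq _ _).symm
    exact ((h5.of_dvd (hqW p hp hpq)).add_right 1).trans (hb p hp hpq (hqW p hp hpq))
  · intro x _ y _ h
    simpa using h

open Classical in
theorem stepA {k T K : ℕ} {Λ : ℝ} (hΛ : 0 < Λ) (hT1 : 1 ≤ T) (hK : 1 ≤ K) (hMT : MTc k T K Λ) :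
    ∃ C X₀ : ℕ, ∀ X : ℕ, X₀ ≤ X → ∀ q a : ℕ, Squarefree q →
    (∀ p, p.Prime → p ∣ q → p ≤ HH X) → ∀ H : Fin T → Fin K → ℕ, Adm H →
    (∀ g i, (H g i : ℝ) ≤ Λ / 2 * Real.log X) →
    (∀ p, p.Prime → p ∣ q → ∀ g i, ¬ p ∣ a + H g i) →
    ∃ (S : Finset (Fin T)) (c : Fin T → Fin K), S.card = k + 1 ∧
      (X : ℝ) / Real.log X ^ C ≤ (cq X q a (S.image (fun g => H g (c g))) : ℝ) := by
  obtain ⟨δ, c, hδ, hδ8, hc, X₁, hmain⟩ := hMT
  obtain ⟨c₁, hc₁, hmv⟩ := Pool.Agent.W70.HR.mv
  obtain ⟨X₂, hX₂⟩ := hmv δ hδ (by linarith)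
  set N : ℕ := Fintype.card (Finset (Fin T) × (Fin T → Fin K)) with hN
  have hNpos : 0 < N := by
    have : Nonempty (Fin K) := ⟨⟨0, by omega⟩⟩
    exact Fintype.card_pos
  set R : ℝ := N / (c * c₁ ^ (T * K)) with hR
  have hlog : ∀ᶠ X : ℕ in Filter.atTop, max (max 1 (2 / Λ)) R ≤ Real.log X :=
    (Real.tendsto_log_atTop.comp tendsto_natCast_atTop_atTop).eventually_ge_atTop _
  obtain ⟨X₃, hX₃⟩ := Filter.eventually_atTop.1 hlog
  refine ⟨T * K + 2, max (max X₁ X₂) (max X₃ 16), fun X hX q a hq hqp H hH hHle hqH => ?_⟩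
  have hX1 : X₁ ≤ X := (le_max_left _ _).trans ((le_max_left _ _).trans hX)
  have hX2 : X₂ ≤ X := (le_max_right _ _).trans ((le_max_left _ _).trans hX)
  have hX3 : X₃ ≤ X := (le_max_left _ _).trans ((le_max_right _ _).trans hX)
  have hX16 : 16 ≤ X := (le_max_right _ _).trans ((le_max_right _ _).trans hX)
  set L : ℝ := Real.log X with hL
  have hLL := hX₃ X hX3
  have hL1 : 1 ≤ L := (le_max_left _ _).trans ((le_max_left _ _).trans hLL)
  have hLΛ : 2 / Λ ≤ L := (le_max_right _ _).trans ((le_max_left _ _).trans hLL)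
  have hLR : R ≤ L := (le_max_right _ _).trans hLL
  have hL0 : 0 < L := by linarith
  have hX0 : (0 : ℝ) < X := by
    have : 0 < X := by omega
    exact_mod_cast this
  obtain ⟨b, hbW, hbc, hbq⟩ := exists_b X q a H hH hqH
  obtain ⟨hVV, hh⟩ := hmain X hX1 b hbW
  have hqW : ∀ p, p.Prime → p ∣ q → p ∣ Wm X := by
    intro p hp hpq
    exact hp.dvd_primorial_iff.2 (hqp p hp hpq)
  have hcount := hh (fun g i => H g i + 1) (by
    intro g i
    rw [Bw, mem_BB]
    refine ⟨by omega, ?_, hbc g i⟩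
    apply Nat.le_floor
    have h1 := hHle g i
    rw [div_le_iff₀ hΛ] at hLΛ
    push_cast
    nlinarith) (by
    intro x y hxy
    apply hH.1
    simpa using hxy)
  -- pigeonhole
  obtain ⟨S, cc, hS, hSc⟩ : ∃ (S : Finset (Fin T)) (cc : Fin T → Fin K), S.card = k + 1 ∧
      c * Om δ X (T * K) / N ≤ (((SI X b).filter (fun n =>
        Cns n (S.image (fun g => H g (cc g) + 1)))).card : ℝ) := by
    by_contra hcon
    push Not at hcon
    have hOm : 0 < Om δ X (T * K) := by
      unfold Om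
      have : (0 : ℝ) < Wm X := by exact_mod_cast primorial_pos _
      positivity
    have h1 : (hitsC δ Λ k X b T K (fun g i => H g i + 1) : ℝ) ≤
        ∑ z ∈ (univ : Finset (Finset (Fin T) × (Fin T → Fin K))).filter (fun z => z.1.card = k + 1),
          (((SI X b).filter (fun n => Cns n (z.1.image (fun g => H g (z.2 g) + 1)))).card : ℝ) := by
      have h2 : hitsC δ Λ k X b T K (fun g i => H g i + 1) ≤
        ∑ z ∈ (univ : Finset (Finset (Fin T) × (Fin T → Fin K))).filter (fun z => z.1.card = k + 1),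
          ((SI X b).filter (fun n => Cns n (z.1.image (fun g => H g (z.2 g) + 1)))).card := by
        unfold hitsC
        refine le_trans (card_le_card ?_) card_biUnion_le
        intro n hn
        rw [mem_filter] at hn
        obtain ⟨hn1, _, _, S, cc, hS, hSc⟩ := hn
        rw [mem_biUnion]
        refine ⟨(S, cc), by simp [hS], ?_⟩
        rw [mem_filter]
        exact ⟨hn1, hSc⟩
      exact_mod_cast h2
    have h3 : ∑ z ∈ (univ : Finset (Finset (Fin T) × (Fin T → Fin K))).filter
          (fun z => z.1.card = k + 1),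
          (((SI X b).filter (fun n => Cns n (z.1.image (fun g => H g (z.2 g) + 1)))).card : ℝ) <
        c * Om δ X (T * K) := by
      rcases ((univ : Finset (Finset (Fin T) × (Fin T → Fin K))).filter
          (fun z => z.1.card = k + 1)).eq_empty_or_nonempty with he | hne
      · rw [he, sum_empty]
        positivity
      · calc _ < ∑ _z ∈ (univ : Finset (Finset (Fin T) × (Fin T → Fin K))).filter
              (fun z => z.1.card = k + 1), c * Om δ X (T * K) / N := by
              apply sum_lt_sum_of_nonempty hne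
              intro z hz
              exact hcon z.1 z.2 (by simpa using hz)
          _ ≤ ∑ _z ∈ (univ : Finset (Finset (Fin T) × (Fin T → Fin K))),
              c * Om δ X (T * K) / N := by
              apply sum_le_sum_of_subset_of_nonneg (filter_subset _ _)
              intro z _ _
              positivity
          _ = c * Om δ X (T * K) := by
              rw [sum_const, card_univ, ← hN, nsmul_eq_mul]
              have : (N : ℝ) ≠ 0 := by exact_mod_cast hNpos.ne'
              field_simp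
    linarith [hcount.trans h1]
  refine ⟨S, cc, hS, ?_⟩
  have h5 : ((SI X b).filter (fun n => Cns n (S.image (fun g => H g (cc g) + 1)))).card ≤
      cq X q a (S.image (fun g => H g (cc g))) := by
    have := count_le (X := X) hq hqW hbq (S.image (fun g => H g (cc g)))
    rw [image_image] at this
    exact this
  have h6 : (((SI X b).filter (fun n => Cns n (S.image (fun g => H g (cc g) + 1)))).card : ℝ) ≤
      (cq X q a (S.image (fun g => H g (cc g))) : ℝ) := by exact_mod_cast h5
  refine le_trans ?_ (hSc.trans h6)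
  -- the lower bound
  have hW0 : (0 : ℝ) < Wm X := by exact_mod_cast primorial_pos _
  have hWL : (Wm X : ℝ) ≤ L := by
    refine (Pool.Agent.H325R2.wtx.1 X hX16).trans ?_
    calc Real.log X ^ (7 / 20 : ℝ) ≤ Real.log X ^ (1 : ℝ) :=
          Real.rpow_le_rpow_of_exponent_le hL1 (by norm_num)
      _ = L := by rw [Real.rpow_one]
  have hV : c₁ / L ≤ VV δ X := by
    have h7 := hX₂ X hX2
    have hφ : (Nat.totient (Wm X) : ℝ) / Wm X ≤ 1 := by
      rw [div_le_one hW0]
      exact_mod_cast Nat.totient_le _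
    have hφ0 : (0 : ℝ) ≤ (Nat.totient (Wm X) : ℝ) / Wm X := by positivity
    rw [div_le_iff₀ hL0]
    calc c₁ ≤ VV δ X * ((Nat.totient (Wm X) : ℝ) / Wm X) * (δ * L) := h7
      _ ≤ VV δ X * 1 * (1 * L) := by
          have : δ ≤ 1 := by linarith
          gcongr
      _ = VV δ X * L := by ring
  have hOm : (X : ℝ) * c₁ ^ (T * K) / L ^ (T * K + 1) ≤ Om δ X (T * K) := by
    unfold Om
    have h8 : (c₁ / L) ^ (T * K) ≤ VV δ X ^ (T * K) := by gcongr
    calc (X : ℝ) * c₁ ^ (T * K) / L ^ (T * K + 1) = X / L * (c₁ / L) ^ (T * K) := by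
          rw [div_pow, pow_succ]
          field_simp
      _ ≤ X / Wm X * VV δ X ^ (T * K) := by gcongr
  have hcc : 0 < c * c₁ ^ (T * K) := by positivity
  have hN0 : (0 : ℝ) < N := by exact_mod_cast hNpos
  have hfin : 1 / L ≤ c * c₁ ^ (T * K) / N := by
    rw [hR, div_le_iff₀ hcc] at hLR
    rw [div_le_div_iff₀ hL0 hN0]
    linarith
  calc (X : ℝ) / L ^ (T * K + 2) = X / L ^ (T * K + 1) * (1 / L) := by
        rw [pow_succ L (T * K + 1)]
        field_simp
    _ ≤ X / L ^ (T * K + 1) * (c * c₁ ^ (T * K) / N) := by gcongr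
    _ = c * ((X : ℝ) * c₁ ^ (T * K) / L ^ (T * K + 1)) / N := by ring
    _ ≤ c * Om δ X (T * K) / N := by gcongr

end Pool.Agent.N685.CP
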