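import Pool.Agent.H461R2.PD.Dens

/-!
# From transversals of classes of shifts to a proportion of all sets of shifts

`proportion`: if every admissible family of `T` classes of `K` elements of `V` has a transversal of
`k + 1` classes in `G`, then `G` contains at least the proportion `1 / C(T - 1, k) - ε` of the
`(k + 1)`-element subsets of `V`.  The proof follows `Pool.Agent.H461R2.PD.tuples` (theorems of
de Caen and Erdős).
-/

namespace Pool.Agent.N685.CP

open Finset Pool.Agent.H461R2.PD

open Classical in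
theorem card_orderings (V : Finset ℕ) (G : Finset ℕ → Prop) (k : ℕ) :
    (univ.filter fun u : Fin (k + 1) → V => Function.Injective u ∧
      G (univ.image fun i => (u i : ℕ))).card ≤
    (k + 1).factorial * ((V.powersetCard (k + 1)).filter G).card := by
  set s := (univ.filter fun u : Fin (k + 1) → V => Function.Injective u ∧
      G (univ.image fun i => (u i : ℕ))) with hs
  have himg : s.image (fun u => univ.image fun i => (u i : ℕ)) ⊆
      (V.powersetCard (k + 1)).filter G := by
    intro I hI
    rw [mem_image] at hI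
    obtain ⟨u, hu, rfl⟩ := hI
    rw [hs, mem_filter] at hu
    rw [mem_filter, mem_powersetCard]
    refine ⟨⟨?_, ?_⟩, hu.2.2⟩
    · intro x hx
      rw [mem_image] at hx
      obtain ⟨i, _, rfl⟩ := hx
      exact (u i).2
    · rw [card_image_of_injective, card_univ, Fintype.card_fin]
      exact fun i j hij => hu.2.1 (Subtype.ext hij)
  refine (card_le_mul_card_image (f := fun u : Fin (k + 1) → V => univ.image fun i => (u i : ℕ))
    s (k + 1).factorial ?_).trans (Nat.mul_le_mul_left _ (card_le_card himg))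
  intro I hI
  have hIc : I.card = k + 1 := by
    have := himg hI
    rw [mem_filter, mem_powersetCard] at this
    exact this.1.2
  -- the fibre embeds into the embeddings `Fin (k + 1) ↪ I`
  have hcard : Fintype.card (Fin (k + 1) ↪ I) = (k + 1).factorial := by
    rw [Fintype.card_embedding_eq, Fintype.card_coe, hIc, Fintype.card_fin, Nat.descFactorial_self]
  rw [← hcard, ← card_univ]
  apply card_le_card_of_surjOn (fun e : Fin (k + 1) ↪ I => fun i =>
    (if h : ((e i : ℕ) ∈ V) then (⟨e i, h⟩ : V) else ⟨(I.min' ⟨_, (e i).2⟩), by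
      have := himg hI
      rw [mem_filter, mem_powersetCard] at this
      exact this.1.1 (min'_mem _ _)⟩ : V))
  intro u hu
  simp only [coe_filter, Set.mem_ofPred_eq] at hu
  obtain ⟨hu1, hu2⟩ := hu
  rw [hs, mem_filter] at hu1
  refine ⟨⟨fun i => ⟨(u i : ℕ), by rw [← hu2]; exact mem_image_of_mem _ (mem_univ i)⟩, ?_⟩,
    by simp, ?_⟩
  · intro i j hij
    apply hu1.2.1
    apply Subtype.ext
    simpa using hij
  · funext i
    change (if h : ((u i : ℕ) ∈ V) then (⟨(u i : ℕ), h⟩ : V) else _) = u i
    rw [dif_pos (u i).2]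

open Classical in
theorem proportion {k T K : ℕ} (hr : T = 1 ∨ 1 ≤ k) (hT : k + 1 ≤ T) (hK : 1 ≤ K) {ε : ℝ}
    (hε : 0 < ε) : ∃ n₀ : ℕ, ∀ V : Finset ℕ, Miss T V → n₀ ≤ V.card → ∀ G : Finset ℕ → Prop,
    (∀ H : Fin T → Fin K → ℕ, (∀ g i, H g i ∈ V) → Adm H →
      ∃ (S : Finset (Fin T)) (c : Fin T → Fin K), S.card = k + 1 ∧
        G (S.image fun g => H g (c g))) →
    (1 / ((T - 1).choose k : ℝ) - ε) * (V.card.choose (k + 1) : ℝ) ≤
      (((V.powersetCard (k + 1)).filter G).card : ℝ) := by
  set β : ℝ := 1 / ((T - 1).choose k : ℝ) with hβ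
  have hch : 0 < ((T - 1).choose k : ℝ) := by
    exact_mod_cast Nat.choose_pos (by omega)
  rcases le_or_gt β ε with hle | hlt
  · refine ⟨0, fun V _ _ G _ => ?_⟩
    have : (β - ε) * (V.card.choose (k + 1) : ℝ) ≤ 0 :=
      mul_nonpos_of_nonpos_of_nonneg (by linarith) (by positivity)
    exact this.trans (by positivity)
  set x : ℝ := β - ε / 2 with hx
  have hx0 : 0 ≤ x := by rw [hx]; linarith
  have hx1 : ((T - 1).choose ((k + 1) - 1) : ℝ) * x < 1 := by
    simp only [Nat.add_sub_cancel]
    rw [hx, hβ, mul_sub, mul_one_div_cancel hch.ne']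
    have : 0 < ((T - 1).choose k : ℝ) * (ε / 2) := by positivity
    linarith
  set Q : ℕ := (T * K).factorial with hQdef
  have hQ0 : 0 < Q := Nat.factorial_pos _
  obtain ⟨n₀, hn₀⟩ := turan_blowup (r := k + 1) (T := T) (K := Q * K) (by omega)
    hT (Nat.mul_pos hQ0 hK) hx0 hx1
  refine ⟨max n₀ (max (k + 1) (⌊2 * ((k + 1 : ℕ) : ℝ) ^ 2 / ε⌋₊ + 1)), fun V hV hcard G hG => ?_⟩
  by_contra hcon
  push Not at hcon
  have hWc : Fintype.card V = V.card := by simp
  have hW0 : n₀ ≤ Fintype.card V := by rw [hWc]; exact (le_max_left _ _).trans hcard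
  have hW1 : k + 1 ≤ Fintype.card V := by
    rw [hWc]; exact (le_max_left _ _).trans ((le_max_right _ _).trans hcard)
  have hW2 : ⌊2 * ((k + 1 : ℕ) : ℝ) ^ 2 / ε⌋₊ + 1 ≤ Fintype.card V := by
    rw [hWc]; exact (le_max_right _ _).trans ((le_max_right _ _).trans hcard)
  set n : ℝ := (Fintype.card V : ℝ) with hn
  have hn0 : 0 < n := by
    rw [hn]
    have : 0 < Fintype.card V := by omega
    exact_mod_cast this
  have hnε : ((k + 1 : ℕ) : ℝ) ^ 2 / n ≤ ε / 2 := by
    have h1 : 2 * ((k + 1 : ℕ) : ℝ) ^ 2 / ε < n := by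
      calc 2 * ((k + 1 : ℕ) : ℝ) ^ 2 / ε < ⌊2 * ((k + 1 : ℕ) : ℝ) ^ 2 / ε⌋₊ + 1 :=
            Nat.lt_floor_add_one _
        _ ≤ n := by rw [hn]; exact_mod_cast hW2
    rw [div_lt_iff₀ hε] at h1
    rw [div_le_iff₀ hn0]
    linarith
  -- the bad sets
  set B : Finset (Finset V) := univ.filter fun I => I.card = k + 1 ∧
    ¬ G (I.image fun a : V => (a : ℕ)) with hB
  have hBr : ∀ I ∈ B, I.card = k + 1 := fun I hI => (mem_filter.1 hI).2.1
  -- all tuples
  set gd : ℕ := ((V.powersetCard (k + 1)).filter G).card with hgd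
  have hcount : n ^ (k + 1) ≤ cnt B (k + 1) (k + 1) + ((k + 1).factorial * gd : ℕ) +
      ((univ.filter fun y : Fin (k + 1) → V => ¬ Function.Injective y).card : ℝ) := by
    have h1 : (univ : Finset (Fin (k + 1) → V)) ⊆
        (univ.filter fun u : Fin (k + 1) → V => Clq B (k + 1) u) ∪
        (univ.filter fun u : Fin (k + 1) → V => Function.Injective u ∧
          G (univ.image fun i => (u i : ℕ))) ∪
        (univ.filter fun y : Fin (k + 1) → V => ¬ Function.Injective y) := by
      intro u _
      simp only [mem_union, mem_filter, mem_univ, true_and]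
      by_cases hinj : Function.Injective u
      · left
        by_cases hp : G (univ.image fun i => (u i : ℕ))
        · right
          exact ⟨hinj, hp⟩
        · left
          intro I hI
          have hIu : I = univ := by
            rw [← card_eq_iff_eq_univ, hI, Fintype.card_fin]
          rw [hB, mem_filter]
          refine ⟨mem_univ _, by rw [card_image_of_injective _ hinj, hI], ?_⟩
          rw [hIu, image_image]
          exact hp
      · right
        exact hinj
    have h2 := (card_le_card h1).trans ((card_union_le _ _).trans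
      (Nat.add_le_add_right (card_union_le _ _) _))
    rw [card_univ, Fintype.card_fun, Fintype.card_fin] at h2
    have h3 : (univ.filter fun u : Fin (k + 1) → V => Function.Injective u ∧
      G (univ.image fun i => (u i : ℕ))).card ≤ (k + 1).factorial * gd := by
      rw [hgd]
      convert card_orderings V G k
    have h4 : (Fintype.card V) ^ (k + 1) ≤ cnt B (k + 1) (k + 1) +
        (k + 1).factorial * gd +
        (univ.filter fun y : Fin (k + 1) → V => ¬ Function.Injective y).card := by
      refine h2.trans ?_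
      unfold cnt
      omega
    rw [hn]
    exact_mod_cast h4
  have hnon := card_noninj V (k + 1) hW1 (by omega)
  rw [← hn] at hnon
  have hgood : (((k + 1).factorial * gd : ℕ) : ℝ) ≤ (β - ε) * n ^ (k + 1) := by
    have h5 : ((k + 1).factorial : ℝ) * (V.card.choose (k + 1) : ℝ) ≤ n ^ (k + 1) := by
      rw [hn, hWc]
      have := Nat.descFactorial_le_pow V.card (k + 1)
      rw [Nat.descFactorial_eq_factorial_mul_choose] at this
      exact_mod_cast this
    push_cast
    have h6 : (gd : ℝ) ≤ (β - ε) * (V.card.choose (k + 1) : ℝ) := hcon.le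
    calc ((k + 1).factorial : ℝ) * gd ≤ (k + 1).factorial * ((β - ε) * (V.card.choose (k + 1) : ℝ)) := by
          gcongr
      _ = (β - ε) * ((k + 1).factorial * (V.card.choose (k + 1) : ℝ)) := by ring
      _ ≤ (β - ε) * n ^ (k + 1) := by
          apply mul_le_mul_of_nonneg_left h5
          linarith
  have hbad : (1 - x) * n ^ (k + 1) ≤ cnt B (k + 1) (k + 1) := by
    have h5 : ((k + 1 : ℕ) : ℝ) ^ 2 / n * n ^ (k + 1) ≤ ε / 2 * n ^ (k + 1) := by gcongr
    rw [hx]
    linarith
  obtain ⟨A, hAK, hA⟩ := hn₀ V hW0 B hbad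
  obtain ⟨H, hH, hHc⟩ := exists_family hV hBr
    (by rcases hr with h | h
        · left; exact h
        · right; omega) hT hK hQ0 (fun p hp hpp => Nat.dvd_factorial hpp.pos hp) hAK hA
  obtain ⟨S, c, hS, hGS⟩ := hG (fun g i => (H g i : ℕ)) (fun g i => (H g i).2) hH
  have h6 := hHc c S hS
  rw [hB, mem_filter] at h6
  apply h6.2.2
  rw [image_image]
  exact hGS

end Pool.Agent.N685.CP
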